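import Pool.Agent.H88.MCR.Stmts

/-!
Row CPV of the board mcr: the points of an edge on the spine.
-/

namespace Pool.MCR

theorem cpv_thm (hEPT : EPT_S) (hKIT : KIT_S) : CPV_S := by
  intro n D hD x hx y hy hxy
  obtain ⟨hK, -, -⟩ := hKIT ℝ n D hD
  have hsub : ∀ u < n, ∀ v < n, u ≠ v → curve (D.A u v) ⊆ curve (D.A v u) := by
    intro u hu v hv huv p hp
    obtain ⟨⟨s, a, b⟩, hA, hpA⟩ := hp
    refine ⟨(s, b, a), hD.symA u hu v hv huv s a b hA, ?_⟩
    have h := (hEPT s a b).1.2.2.2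
    change p ∈ arcSet s b a
    rw [← h]
    exact hpA
  have hstart : ∀ u < n, ∀ v < n, u ≠ v → (D.pos u, (0 : ℝ)) ∈ curve (D.A u v) := by
    intro u hu v hv huv
    refine ⟨(D.S u v, D.pos u, D.nx u v), (hK u hu v hv huv).2.2.1, ?_⟩
    exact (hEPT (D.S u v) (D.pos u) (D.nx u v)).1.1
  have hspine : ∀ p ∈ curve (D.A x y), p.2 = 0 → p.1 ∈ D.P x y := by
    intro p hp h0
    obtain ⟨⟨s, a, b⟩, hA, hpA⟩ := hp
    have hab := (hK x hx y hy hxy).2.2.2.1 s a b hA
    rcases ((hEPT s a b).2.1 p hpA).1 h0 with h | h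
    · rw [h]; exact hab.1
    · rw [h]; exact hab.2.1
  refine ⟨hstart x hx y hy hxy, hsub y hy x hx (Ne.symm hxy) (hstart y hy x hx (Ne.symm hxy)),
    hspine, ?_, Set.Subset.antisymm (hsub y hy x hx (Ne.symm hxy)) (hsub x hx y hy hxy)⟩
  intro z hz hmem
  have h := hspine _ hmem rfl
  change D.pos z ∈ D.pos x :: (D.E x y ++ [D.pos y]) at h
  rw [List.mem_cons, List.mem_append, List.mem_singleton] at h
  rcases h with h | h | h
  · exact Or.inl (hD.pos_inj z hz x hx h)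
  · exact absurd h (hD.notin x hx y hy z hz hxy)
  · exact Or.inr (hD.pos_inj z hz y hy h)

end Pool.MCR
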